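import Pool.Agent.H547Z.Pos.TestP

set_option autoImplicit false

/-!
# Positive operators on a finite laminar family: weak type, counting and class estimates
-/

namespace Pool.Agent.H547Z.Pos

open MeasureTheory Set Pool.Agent.H572Z.Sp
open scoped ENNReal Classical

variable {X : Type*} [MeasurableSpace X]

lemma exists_class {a b : ℝ≥0∞} (ha : a ≠ 0) (hab : a ≤ b) (hb : b ≠ ⊤) :
    ∃ n : ℕ, b ≤ 2 ^ (n + 1) * a ∧ a ≤ 2⁻¹ ^ n * b := by
  have hat : a ≠ ⊤ := ne_top_of_le_ne_top hb hab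
  have hex : ∃ n : ℕ, b ≤ 2 ^ (n + 1) * a := by
    obtain ⟨n, hn⟩ := ENNReal.exists_nat_gt (ENNReal.div_ne_top hb ha)
    refine ⟨n, ?_⟩
    rw [ENNReal.div_lt_iff (Or.inl ha) (Or.inl hat)] at hn
    refine hn.le.trans ?_
    gcongr
    have : n ≤ 2 ^ (n + 1) := (Nat.lt_two_pow_self.le).trans (Nat.pow_le_pow_right (by norm_num) (by omega))
    exact_mod_cast this
  refine ⟨Nat.find hex, Nat.find_spec hex, ?_⟩
  have h1 : 2 ^ Nat.find hex * a ≤ b := by
    rcases h : Nat.find hex with _ | m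
    · simpa using hab
    · exact (not_le.1 (Nat.find_min hex (m := m) (by omega))).le
  calc a = 2⁻¹ ^ Nat.find hex * (2 ^ Nat.find hex * a) := by
        rw [← mul_assoc, ← mul_pow, ENNReal.inv_mul_cancel (by norm_num) (by norm_num), one_pow,
          one_mul]
    _ ≤ _ := by gcongr

/-- **Weak type from the dual testing condition on subfamilies.** -/
theorem weak_p {p q : ℝ} (hpq : p.HolderConjugate q) : ∃ c : ℝ≥0∞, c ≠ ⊤ ∧
    ∀ (w σ : Measure X) (S : Finset (Set X)), Lam (S : Set (Set X)) →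
      (∀ P ∈ S, MeasurableSet P) → (∀ P ∈ S, w P ≠ ⊤) →
      ∀ (k : Set X → ℝ≥0∞) (T : ℝ≥0∞),
      (∀ S' ⊆ S, ∀ U : Set X, MeasurableSet U → (∀ Q ∈ S', Q ⊆ U) →
        ∫⁻ x, sp S' (fun Q => k Q * w Q) x ^ q ∂σ ≤ T ^ q * w U) →
      ∀ f : X → ℝ≥0∞, Measurable f → ∀ F : Set X, MeasurableSet F →
        ∫⁻ x in F, sp S (fun Q => k Q * ∫⁻ y in Q, f y ∂σ) x ∂w ≤
          c * T * (∫⁻ x, f x ^ p ∂σ) ^ (1 / p) * (w F) ^ (1 / q) := by
  have hp := hpq.lt
  have hq := hpq.symm.lt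
  have hq0 : 0 < 1 / q := by positivity
  have hq1 : 1 / q < 1 := by rw [div_lt_one (by linarith)]; exact hq
  set y : ℝ≥0∞ := 2⁻¹ * 2 ^ (1 / q) with hy
  have hy1 : y < 1 := by
    have : (2 : ℝ≥0∞) ^ (1 / q) < 2 ^ (1 : ℝ) :=
      ENNReal.rpow_lt_rpow_of_exponent_lt (by norm_num) (by norm_num) hq1
    rw [ENNReal.rpow_one] at this
    calc y < 2⁻¹ * 2 := ENNReal.mul_lt_mul_right (by norm_num) (by norm_num) this
      _ = 1 := ENNReal.inv_mul_cancel (by norm_num) (by norm_num)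
  refine ⟨(1 - y)⁻¹ * 2 ^ (1 / q), ENNReal.mul_ne_top (ENNReal.inv_ne_top.2 (tsub_pos_of_lt hy1).ne')
    (ENNReal.rpow_ne_top_of_nonneg hq0.le (by norm_num)),
    fun w σ S h hS hw k T hT f hf F hF => ?_⟩
  set S₀ := S.filter (fun Q => w (Q ∩ F) ≠ 0) with hS₀
  have hcl : ∀ Q, ∃ n : ℕ, Q ∈ S₀ → w Q ≤ 2 ^ (n + 1) * w (Q ∩ F) ∧ w (Q ∩ F) ≤ 2⁻¹ ^ n * w Q := by
    intro Q
    by_cases hQ : Q ∈ S₀
    · obtain ⟨n, hn⟩ := exists_class (Finset.mem_filter.1 hQ).2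
        (measure_mono Set.inter_subset_left) (hw Q (Finset.mem_filter.1 hQ).1)
      exact ⟨n, fun _ => hn⟩
    · exact ⟨0, fun h => absurd h hQ⟩
  choose n hn using hcl
  set B : ℝ≥0∞ := 2 ^ (1 / q) * T * (∫⁻ x, f x ^ p ∂σ) ^ (1 / p) * (w F) ^ (1 / q) with hB
  have key : ∀ m : ℕ, ∑ Q ∈ S₀.filter (fun Q => n Q = m),
      (k Q * ∫⁻ y in Q, f y ∂σ) * w (Q ∩ F) ≤ y ^ m * B := by
    intro m
    set Sm := S₀.filter (fun Q => n Q = m) with hSm
    have hsub : Sm ⊆ S := (Finset.filter_subset _ _).trans (Finset.filter_subset _ _)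
    have hm : ∀ P ∈ Sm, MeasurableSet P := fun P hP => hS P (hsub hP)
    have hU : w (⋃ P ∈ Sm, P) ≤ 2 ^ (m + 1) * w F := by
      have := union_le_fin w (((2 : ℝ≥0∞) ^ (m + 1)) • w.restrict F)
        (h.mono (Finset.coe_subset.2 hsub)) hm (fun P hP => by
          rw [Measure.smul_apply, Measure.restrict_apply (hm P hP), smul_eq_mul]
          have h1 := Finset.mem_filter.1 hP
          rw [← h1.2]
          exact (hn P h1.1).1)
      refine this.trans ?_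
      rw [Measure.smul_apply, smul_eq_mul]
      exact mul_le_mul_right ((measure_mono (Set.subset_univ _)).trans (by simp)) _
    have hT' := hT Sm hsub _ (Finset.measurableSet_biUnion _ hm) (fun Q hQ => sub_biU hQ)
    have hH := ENNReal.lintegral_mul_le_Lp_mul_Lq σ hpq.symm
      (sp_meas hm (fun Q => k Q * w Q)).aemeasurable hf.aemeasurable
    calc ∑ Q ∈ Sm, (k Q * ∫⁻ y in Q, f y ∂σ) * w (Q ∩ F)
        ≤ ∑ Q ∈ Sm, 2⁻¹ ^ m * ((k Q * w Q) * ∫⁻ y in Q, f y ∂σ) := by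
          refine Finset.sum_le_sum fun Q hQ => ?_
          have h1 := Finset.mem_filter.1 hQ
          have h2 := (hn Q h1.1).2
          rw [h1.2] at h2
          calc (k Q * ∫⁻ y in Q, f y ∂σ) * w (Q ∩ F) ≤ (k Q * ∫⁻ y in Q, f y ∂σ) * (2⁻¹ ^ m * w Q) := by
                gcongr
            _ = _ := by ring
      _ = 2⁻¹ ^ m * ∫⁻ x, sp Sm (fun Q => k Q * w Q) x * f x ∂σ := by
          rw [← Finset.mul_sum, lint_sp_mul σ hm _ hf]
      _ ≤ 2⁻¹ ^ m * ((T ^ q * (2 ^ (m + 1) * w F)) ^ (1 / q) * (∫⁻ x, f x ^ p ∂σ) ^ (1 / p)) := by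
          gcongr
          refine hH.trans ?_
          gcongr
          exact hT'.trans (by gcongr)
      _ = y ^ m * B := by
          rw [ENNReal.mul_rpow_of_nonneg _ _ hq0.le, ENNReal.mul_rpow_of_nonneg _ _ hq0.le,
            ← ENNReal.rpow_mul, mul_one_div_cancel (by linarith), ENNReal.rpow_one, pow_succ,
            ENNReal.mul_rpow_of_nonneg _ _ hq0.le, hy, mul_pow, hB, ← ENNReal.rpow_natCast 2 m,
            ← ENNReal.rpow_mul, mul_comm (m : ℝ), ENNReal.rpow_mul, ENNReal.rpow_natCast]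
          ring
  calc ∫⁻ x in F, sp S (fun Q => k Q * ∫⁻ y in Q, f y ∂σ) x ∂w
      = ∑ Q ∈ S, (k Q * ∫⁻ y in Q, f y ∂σ) * w (Q ∩ F) := by
        rw [lintegral_sp _ hS]
        exact Finset.sum_congr rfl fun Q hQ => by rw [Measure.restrict_apply (hS Q hQ)]
    _ = ∑ Q ∈ S₀, (k Q * ∫⁻ y in Q, f y ∂σ) * w (Q ∩ F) := by
        refine (Finset.sum_subset (Finset.filter_subset _ _) fun Q hQ hQ' => ?_).symm
        simp only [Finset.mem_filter, hQ, true_and, not_not] at hQ'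
        simp [hQ']
    _ = ∑ m ∈ S₀.image n, ∑ Q ∈ S₀.filter (fun Q => n Q = m),
          (k Q * ∫⁻ y in Q, f y ∂σ) * w (Q ∩ F) :=
        (Finset.sum_fiberwise_of_maps_to (fun Q hQ => Finset.mem_image_of_mem _ hQ) _).symm
    _ ≤ ∑ m ∈ S₀.image n, y ^ m * B := Finset.sum_le_sum fun m _ => key m
    _ ≤ (1 - y)⁻¹ * B := by
        rw [← Finset.sum_mul]
        gcongr
        exact geo_inj y _ id (Set.injOn_id _)
    _ = _ := by rw [hB]; ring

lemma succ_pow_le (n r : ℕ) : (n + 1) ^ (r + 1) ≤ (r + 1) * (n + 1) ^ r + n ^ (r + 1) := by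
  induction r with
  | zero => simp [add_comm]
  | succ r ih =>
    calc (n + 1) ^ (r + 1 + 1) = (n + 1) ^ (r + 1) + n * (n + 1) ^ (r + 1) := by ring
      _ ≤ (n + 1) ^ (r + 1) + n * ((r + 1) * (n + 1) ^ r + n ^ (r + 1)) := by gcongr
      _ = (n + 1) ^ (r + 1) + (r + 1) * (n * (n + 1) ^ r) + n ^ (r + 1 + 1) := by ring
      _ ≤ (n + 1) ^ (r + 1) + (r + 1) * ((n + 1) * (n + 1) ^ r) + n ^ (r + 1 + 1) := by
          gcongr; omega
      _ = _ := by ring

omit [MeasurableSpace X] in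
lemma chain_pow (r : ℕ) : ∀ (N : ℕ) (T : Finset (Set X)), T.card = N →
    (∀ P ∈ T, ∀ Q ∈ T, P ⊆ Q ∨ Q ⊆ P) →
    T.card ^ (r + 1) ≤ (r + 1) * ∑ Q ∈ T, (T.filter (· ⊆ Q)).card ^ r := by
  intro N
  induction N with
  | zero => intro T hT _; simp [hT]
  | succ N ih =>
    intro T hT hch
    obtain ⟨P₀, hP₀⟩ : T.Nonempty := Finset.card_pos.1 (by omega)
    obtain ⟨P, -, hP⟩ := T.exists_le_maximal hP₀
    have hall : ∀ Q ∈ T, Q ⊆ P := fun Q hQ => by
      rcases hch Q hQ P hP.1 with h | h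
      · exact h
      · exact hP.2 hQ h
    have hc : (T.erase P).card = N := by rw [Finset.card_erase_of_mem hP.1]; omega
    have h1 := ih (T.erase P) hc (fun A hA B hB =>
      hch A (Finset.mem_of_mem_erase hA) B (Finset.mem_of_mem_erase hB))
    have h2 : ∑ Q ∈ T.erase P, ((T.erase P).filter (· ⊆ Q)).card ^ r ≤
        ∑ Q ∈ T.erase P, (T.filter (· ⊆ Q)).card ^ r :=
      Finset.sum_le_sum fun Q _ => Nat.pow_le_pow_left (Finset.card_le_card
        (Finset.filter_subset_filter _ (Finset.erase_subset _ _))) _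
    rw [← Finset.add_sum_erase _ _ hP.1, Finset.filter_true_of_mem hall, hT, mul_add]
    rw [hc] at h1
    exact (succ_pow_le N r).trans (by gcongr; exact h1.trans (by gcongr))

omit [MeasurableSpace X] in
lemma sp_one (S : Finset (Set X)) (x : X) :
    sp S (fun _ => 1) x = ((S.filter (x ∈ ·)).card : ℝ≥0∞) := by simp [sp]

/-- **Powers of the counting function of a Carleson family.** -/
theorem count_pow (r : ℕ) {Λ : ℝ≥0∞} (hΛ : Λ ≠ ⊤) : ∃ c : ℝ≥0∞, c ≠ ⊤ ∧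
    ∀ (σ : Measure X) (S : Finset (Set X)), Lam (S : Set (Set X)) →
      (∀ P ∈ S, MeasurableSet P) → (∀ R ∈ S, ∑ Q ∈ S.filter (· ⊆ R), σ Q ≤ Λ * σ R) →
      ∫⁻ x, sp S (fun _ => 1) x ^ (r + 1) ∂σ ≤ c * ∑ Q ∈ S, σ Q := by
  induction r with
  | zero =>
    refine ⟨1, by simp, fun σ S _ hS _ => ?_⟩
    simp only [zero_add, pow_one, lintegral_sp σ hS, one_mul, le_refl]
  | succ r ih =>
    obtain ⟨c, hc, ih⟩ := ih
    refine ⟨((r + 1 + 1 : ℕ) : ℝ≥0∞) * (c * Λ), ENNReal.mul_ne_top (by simp) (ENNReal.mul_ne_top hc hΛ),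
      fun σ S h hS hcar => ?_⟩
    have hmQ : ∀ Q, ∀ P ∈ S.filter (· ⊆ Q), MeasurableSet P := fun Q P hP =>
      hS P (Finset.mem_filter.1 hP).1
    have hpt : ∀ x, sp S (fun _ => 1) x ^ (r + 1 + 1) ≤ ((r + 1 + 1 : ℕ) : ℝ≥0∞) *
        ∑ Q ∈ S, sp (S.filter (· ⊆ Q)) (fun _ => 1) x ^ (r + 1) := by
      intro x
      have := chain_pow (r + 1) _ (S.filter (x ∈ ·)) rfl (fun P hP Q hQ =>
        h.nested (Finset.mem_filter.1 hP).1 (Finset.mem_filter.1 hQ).1 (Finset.mem_filter.1 hP).2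
          (Finset.mem_filter.1 hQ).2)
      have h2 : ∑ Q ∈ S.filter (x ∈ ·), ((S.filter (x ∈ ·)).filter (· ⊆ Q)).card ^ (r + 1) ≤
          ∑ Q ∈ S, ((S.filter (· ⊆ Q)).filter (x ∈ ·)).card ^ (r + 1) := by
        simp_rw [Finset.filter_comm (s := S) (x ∈ ·)]
        exact Finset.sum_le_sum_of_subset (Finset.filter_subset _ _)
      simp_rw [sp_one]
      exact_mod_cast this.trans (by gcongr)
    calc ∫⁻ x, sp S (fun _ => 1) x ^ (r + 1 + 1) ∂σ
        ≤ ∫⁻ x, ((r + 1 + 1 : ℕ) : ℝ≥0∞) *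
          ∑ Q ∈ S, sp (S.filter (· ⊆ Q)) (fun _ => 1) x ^ (r + 1) ∂σ := lintegral_mono hpt
      _ = ((r + 1 + 1 : ℕ) : ℝ≥0∞) *
          ∑ Q ∈ S, ∫⁻ x, sp (S.filter (· ⊆ Q)) (fun _ => 1) x ^ (r + 1) ∂σ := by
          rw [lintegral_const_mul _ (Finset.measurable_sum _ fun Q _ =>
            (sp_meas (hmQ Q) _).pow_const _),
            lintegral_finsetSum _ fun Q _ => (sp_meas (hmQ Q) _).pow_const _]
      _ ≤ ((r + 1 + 1 : ℕ) : ℝ≥0∞) * ∑ Q ∈ S, c * (Λ * σ Q) := by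
          gcongr with Q hQ
          refine (ih σ _ (h.mono (Finset.coe_subset.2 (Finset.filter_subset _ _))) (hmQ Q)
            fun R hR => ?_).trans (by gcongr; exact hcar Q hQ)
          exact (Finset.sum_le_sum_of_subset (Finset.filter_subset_filter _
            (Finset.filter_subset _ _))).trans (hcar R (Finset.mem_filter.1 hR).1)
      _ = _ := by rw [← Finset.mul_sum, ← Finset.mul_sum]; ring

lemma sum_natAbs_le (y : ℝ≥0∞) (J : Finset ℤ) : ∑ j ∈ J, y ^ j.natAbs ≤ 2 * (1 - y)⁻¹ := by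
  rw [← Finset.sum_filter_add_sum_filter_not J (fun j => 0 ≤ j), two_mul]
  refine add_le_add (geo_inj y _ _ ?_) (geo_inj y _ _ ?_)
  · intro a ha b hb e
    have h1 := (Finset.mem_filter.1 ha).2
    have h2 := (Finset.mem_filter.1 hb).2
    omega
  · intro a ha b hb e
    have h1 := (Finset.mem_filter.1 ha).2
    have h2 := (Finset.mem_filter.1 hb).2
    omega

lemma four_zpow (m : ℤ) : (4 : ℝ≥0∞) ^ m = 2 ^ m * 2 ^ m := by
  rw [← ENNReal.rpow_intCast, ← ENNReal.rpow_intCast,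
    ← ENNReal.mul_rpow_of_ne_top (by norm_num) (by norm_num)]
  norm_num

/-- **Testing estimate for a family split into classes.** -/
theorem class_testing {q : ℝ} (hq : 1 < q) {y : ℝ≥0∞} (hy0 : 0 < y) (hy1 : y < 1) {Λ : ℝ≥0∞}
    (hΛ : Λ ≠ ⊤) : ∃ c : ℝ≥0∞, c ≠ ⊤ ∧
    ∀ (μ σ : Measure X) (S : Finset (Set X)), Lam (S : Set (Set X)) →
      (∀ P ∈ S, MeasurableSet P) → (∀ R ∈ S, ∑ Q ∈ S.filter (· ⊆ R), μ Q ≤ Λ * μ R) →
      ∀ (u j : Set X → ℤ) (s : ℤ → ℤ → ℝ≥0∞) (a : Set X → ℝ≥0∞),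
      (∀ Q ∈ S, a Q ≤ 4 ^ (u Q)) →
      (∀ Q ∈ S, s (u Q) (j Q) * μ Q ≤ σ Q ∧ σ Q ≤ 2 * s (u Q) (j Q) * μ Q) →
      ∫⁻ x, sp S a x ^ q ∂σ ≤
        c * ∑ Q ∈ S, (4 ^ (u Q) * (y⁻¹) ^ (2 * (j Q).natAbs)) ^ q * σ Q := by
  obtain ⟨r, hr⟩ := exists_nat_ge (2 * q)
  obtain ⟨c, hc, hcount⟩ := count_pow (X := X) r (Λ := 2 * Λ) (ENNReal.mul_ne_top (by norm_num) hΛ)
  set D : ℝ≥0∞ := 2 * (2 * (1 - y)⁻¹) with hD
  have hDt : D ≠ ⊤ := ENNReal.mul_ne_top (by norm_num) (ENNReal.mul_ne_top (by norm_num)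
    (ENNReal.inv_ne_top.2 (tsub_pos_of_lt hy1).ne'))
  have hyt : y ≠ ⊤ := ne_top_of_lt hy1
  refine ⟨D ^ q * c, ENNReal.mul_ne_top (ENNReal.rpow_ne_top_of_nonneg (by linarith) hDt) hc,
    fun μ σ S h hS hcar u j s a ha hs => ?_⟩
  set cl : Set X → ℤ × ℤ := fun Q => (u Q, j Q) with hcl
  set Sc : ℤ × ℤ → Finset (Set X) := fun z => S.filter (fun Q => cl Q = z) with hSc
  set W : ℤ × ℤ → ℝ≥0∞ := fun z => (4 ^ z.1 * (y⁻¹) ^ (2 * z.2.natAbs)) ^ q with hW
  have hm : ∀ z, ∀ P ∈ Sc z, MeasurableSet P := fun z P hP => hS P (Finset.mem_filter.1 hP).1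
  have hpt : ∀ x, sp S a x ^ q ≤
      D ^ q * ∑ z ∈ S.image cl, W z * sp (Sc z) (fun _ => 1) x ^ (r + 1) := by
    intro x
    set T := S.filter (x ∈ ·) with hT
    rcases T.eq_empty_or_nonempty with hT0 | hT0
    · rw [sp, ← hT, hT0]
      simp [show 0 < q by linarith]
    set N : ℤ × ℤ → ℝ≥0∞ := fun z => sp (Sc z) (fun _ => 1) x with hN
    have hN1 : ∀ z ∈ T.image cl, 1 ≤ N z := by
      intro z hz
      obtain ⟨Q, hQ, rfl⟩ := Finset.mem_image.1 hz
      exact Finset.single_le_sum (f := fun _ => (1 : ℝ≥0∞)) (fun _ _ => zero_le)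
        (Finset.mem_filter.2 ⟨Finset.mem_filter.2 ⟨(Finset.mem_filter.1 hQ).1, rfl⟩,
          (Finset.mem_filter.1 hQ).2⟩)
    obtain ⟨z₀, hz₀, hmax⟩ := Finset.exists_max_image (T.image cl)
      (fun z => (y⁻¹) ^ z.2.natAbs * 2 ^ z.1 * N z) (hT0.image _)
    set M := (y⁻¹) ^ z₀.2.natAbs * 2 ^ z₀.1 * N z₀ with hM
    have hyy : ∀ n : ℕ, y ^ n * y⁻¹ ^ n = 1 := fun n => by
      rw [← mul_pow, ENNReal.mul_inv_cancel hy0.ne' hyt, one_pow]
    have h1 : ∀ z ∈ T.image cl, 2 ^ z.1 * N z ≤ y ^ z.2.natAbs * M := by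
      intro z hz
      calc 2 ^ z.1 * N z = y ^ z.2.natAbs * ((y⁻¹) ^ z.2.natAbs * 2 ^ z.1 * N z) := by
            rw [← mul_assoc, ← mul_assoc, hyy, one_mul]
        _ ≤ _ := by gcongr; exact hmax z hz
    have h2 : ∀ z ∈ T.image cl, (2 : ℝ≥0∞) ^ z.1 ≤ M := by
      intro z hz
      calc (2 : ℝ≥0∞) ^ z.1 = 2 ^ z.1 * 1 := (mul_one _).symm
        _ ≤ 2 ^ z.1 * N z := by gcongr; exact hN1 z hz
        _ ≤ y ^ z.2.natAbs * M := h1 z hz
        _ ≤ 1 * M := by gcongr; exact pow_le_one₀ zero_le hy1.le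
        _ = M := one_mul _
    have h3 : sp S a x ≤ D * (M * M) := by
      calc sp S a x = ∑ z ∈ T.image cl, ∑ Q ∈ T.filter (fun Q => cl Q = z), a Q :=
            (Finset.sum_fiberwise_of_maps_to (fun Q hQ => Finset.mem_image_of_mem _ hQ) _).symm
        _ ≤ ∑ z ∈ T.image cl, 2 ^ z.1 * y ^ z.2.natAbs * M := by
            refine Finset.sum_le_sum fun z hz => ?_
            calc ∑ Q ∈ T.filter (fun Q => cl Q = z), a Q
                ≤ ∑ Q ∈ T.filter (fun Q => cl Q = z), (4 : ℝ≥0∞) ^ z.1 * 1 := by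
                  refine Finset.sum_le_sum fun Q hQ => ?_
                  have h4 := Finset.mem_filter.1 hQ
                  rw [← h4.2, mul_one]
                  exact ha Q (Finset.mem_filter.1 h4.1).1
              _ = 2 ^ z.1 * (2 ^ z.1 * N z) := by
                  rw [← Finset.mul_sum, four_zpow, mul_assoc, hT, Finset.filter_comm]
                  rfl
              _ ≤ 2 ^ z.1 * (y ^ z.2.natAbs * M) := mul_le_mul_right (h1 z hz) _
              _ = _ := by ring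
        _ ≤ ∑ z ∈ ((T.image cl).image Prod.fst) ×ˢ ((T.image cl).image Prod.snd),
              2 ^ z.1 * y ^ z.2.natAbs * M :=
            Finset.sum_le_sum_of_subset Finset.subset_product
        _ = (∑ m ∈ (T.image cl).image Prod.fst, (2 : ℝ≥0∞) ^ m) *
              (∑ i ∈ (T.image cl).image Prod.snd, y ^ i.natAbs) * M := by
            rw [← Finset.sum_mul, Finset.sum_mul_sum, Finset.sum_product]
        _ ≤ (2 * M) * (2 * (1 - y)⁻¹) * M := by
            gcongr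
            · refine sum_zpow_le _ _ fun m hm => ?_
              obtain ⟨z, hz, rfl⟩ := Finset.mem_image.1 hm
              exact h2 z hz
            · exact sum_natAbs_le _ _
        _ = _ := by rw [hD]; ring
    have h4 : (M * M) ^ q ≤ W z₀ * N z₀ ^ (r + 1) := by
      have e : M * M = (4 ^ z₀.1 * (y⁻¹) ^ (2 * z₀.2.natAbs)) * N z₀ ^ 2 := by
        rw [hM, four_zpow]; ring
      rw [e, ENNReal.mul_rpow_of_nonneg _ _ (by linarith)]
      gcongr
      rw [← ENNReal.rpow_natCast, ← ENNReal.rpow_mul, ← ENNReal.rpow_natCast]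
      exact ENNReal.rpow_le_rpow_of_exponent_le (hN1 z₀ hz₀) (by push_cast; linarith)
    calc sp S a x ^ q ≤ (D * (M * M)) ^ q := ENNReal.rpow_le_rpow h3 (by linarith)
      _ = D ^ q * (M * M) ^ q := ENNReal.mul_rpow_of_nonneg _ _ (by linarith)
      _ ≤ _ := by
          gcongr
          refine h4.trans (Finset.single_le_sum (f := fun z => W z * N z ^ (r + 1))
            (fun _ _ => zero_le) ?_)
          exact Finset.image_subset_image (Finset.filter_subset _ _) hz₀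
  have hcz : ∀ z, ∫⁻ x, sp (Sc z) (fun _ => 1) x ^ (r + 1) ∂σ ≤ c * ∑ Q ∈ Sc z, σ Q := by
    intro z
    refine hcount σ _ (h.mono (Finset.coe_subset.2 (Finset.filter_subset _ _))) (hm z)
      fun R hR => ?_
    have hR' := Finset.mem_filter.1 hR
    have hs' : ∀ Q ∈ Sc z, s z.1 z.2 * μ Q ≤ σ Q ∧ σ Q ≤ 2 * s z.1 z.2 * μ Q := by
      intro Q hQ
      have hQ' := Finset.mem_filter.1 hQ
      rw [← hQ'.2]
      exact hs Q hQ'.1
    calc ∑ Q ∈ (Sc z).filter (· ⊆ R), σ Q ≤ ∑ Q ∈ (Sc z).filter (· ⊆ R), 2 * s z.1 z.2 * μ Q :=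
          Finset.sum_le_sum fun Q hQ => (hs' Q (Finset.mem_filter.1 hQ).1).2
      _ ≤ 2 * s z.1 z.2 * (Λ * μ R) := by
          rw [← Finset.mul_sum]
          gcongr
          exact (Finset.sum_le_sum_of_subset (Finset.filter_subset_filter _
            (Finset.filter_subset _ _))).trans (hcar R hR'.1)
      _ = 2 * Λ * (s z.1 z.2 * μ R) := by ring
      _ ≤ _ := by gcongr; exact (hs' R hR).1
  calc ∫⁻ x, sp S a x ^ q ∂σ
      ≤ ∫⁻ x, D ^ q * ∑ z ∈ S.image cl, W z * sp (Sc z) (fun _ => 1) x ^ (r + 1) ∂σ :=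
        lintegral_mono hpt
    _ = D ^ q * ∑ z ∈ S.image cl, W z * ∫⁻ x, sp (Sc z) (fun _ => 1) x ^ (r + 1) ∂σ := by
        rw [lintegral_const_mul _ (Finset.measurable_sum _ fun z _ =>
            ((sp_meas (hm z) _).pow_const _).const_mul _),
          lintegral_finsetSum _ fun z _ => ((sp_meas (hm z) _).pow_const _).const_mul _]
        congr 1
        exact Finset.sum_congr rfl fun z _ => lintegral_const_mul _ ((sp_meas (hm z) _).pow_const _)
    _ ≤ D ^ q * ∑ z ∈ S.image cl, W z * (c * ∑ Q ∈ Sc z, σ Q) := by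
        gcongr with z; exact hcz z
    _ = D ^ q * c * ∑ z ∈ S.image cl, ∑ Q ∈ Sc z, W (cl Q) * σ Q := by
        rw [mul_assoc, Finset.mul_sum (a := c)]
        congr 1
        refine Finset.sum_congr rfl fun z _ => ?_
        rw [mul_left_comm, Finset.mul_sum (a := W z)]
        congr 1
        exact Finset.sum_congr rfl fun Q hQ => by rw [(Finset.mem_filter.1 hQ).2]
    _ = _ := by
        rw [Finset.sum_fiberwise_of_maps_to (fun Q hQ => Finset.mem_image_of_mem _ hQ)]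

end Pool.Agent.H547Z.Pos
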